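import Pool.Agent.Lib.MP_fcdc87_an.Upper
import Pool.Agent.Lib.MP_fcdc87_an.BReg

/-!
Green-Poisson residual functions are not idempotent: in the unit ball of `ℂⁿ`, `n ≥ 2`, there is a
negative plurisubharmonic function `φ` with `g_{g_φ} ≠ g_φ`.

The definitions (`Cn`, `IsPSH`, `IsPSHNeg`, `IsBRegular`, `minorants`, `residual`) are in
`Pool/Agent/Lib/MP_fcdc87_an/Defs.lean`.
-/

set_option autoImplicit false

open Metric

namespace Pool.Agent.Results.MP_fcdc87_an.NotIdempotent

open Pool.Agent.Lib.MP_fcdc87_an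

/-- For every `n ≥ 2` the unit ball of `ℂⁿ` is B-regular and carries a continuous real function
`φ ∈ PSH⁻` such that `g_φ ≥ -1` on the ball and `g_{g_φ} = 0` on the ball, while `g_φ ≤ -c < 0` in
a neighbourhood of the origin. -/
theorem result (n : ℕ) (hn : 2 ≤ n) :
    IsBRegular (ball (0 : Cn n) 1) ∧
      ∃ φ : Cn n → ℝ, ContinuousOn φ (ball 0 1) ∧
        IsPSHNeg (ball 0 1) (fun z => (φ z : EReal)) ∧
        (∀ z ∈ ball (0 : Cn n) 1, (-1 : EReal) ≤ residual (ball 0 1) (fun z => (φ z : EReal)) z) ∧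
        (∀ z ∈ ball (0 : Cn n) 1,
          residual (ball 0 1) (residual (ball 0 1) (fun z => (φ z : EReal))) z = 0) ∧
        ∃ c : ℝ, 0 < c ∧ ∃ r : ℝ, 0 < r ∧ ∀ z ∈ ball (0 : Cn n) r,
          residual (ball 0 1) (fun z => (φ z : EReal)) z ≤ ((-c : ℝ) : EReal) := by
  obtain ⟨m, rfl⟩ : ∃ m, n = m + 2 := ⟨n - 2, by omega⟩
  refine ⟨isBRegular_ball, phi m, continuousOn_phi m, isPSHNeg_phi m, ?_, ?_, ?_⟩
  · intro z hz
    have := residual_ge m hz
    simpa using this
  · intro z hz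
    exact residual_eq_zero (fun x hx => residual_ge m hx) hz
  · refine ⟨1 / (24 * Real.pi), by have := Real.pi_pos; positivity, rad m, rad_pos m,
      fun z hz => ?_⟩
    exact residual_le m (by simpa using hz)

/-- The statement of the question fails. -/
theorem not_idempotent :
    ¬ ∀ (n : ℕ) (D : Set (Cn n)) (φ : Cn n → EReal), IsBRegular D → IsPSHNeg D φ →
      ∀ z ∈ D, residual D (residual D φ) z = residual D φ z := by
  intro H
  obtain ⟨hB, φ, -, hφ, -, h0, c, hc, r, hr, hle⟩ := result 2 le_rfl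
  have h1 := H 2 _ _ hB hφ 0 (by simp)
  have h2 := hle 0 (by simpa using hr)
  rw [← h1, h0 0 (by simp)] at h2
  have h3 : (0 : ℝ) ≤ -c := by exact_mod_cast h2
  linarith

end Pool.Agent.Results.MP_fcdc87_an.NotIdempotent
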